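import Pool.Agent.Helper70.MM.Goals

/-! Packet MM-ROT: symmetry of the maximising measure of a ball. -/

open MeasureTheory Set Metric
open scoped ENNReal Topology
open Pool.Agent.Results.MP_91ee6f_gt

namespace Pool.Agent.Helper49.MM

open Pool.Agent.Helper70.MM

theorem rot (hCRIT : CRIT) (hEX : EXMAX) : ROT := by
  intro n R hR μ hμ g
  have hXc : IsCompact (closedBall (0 : En n) R) := isCompact_closedBall _ _
  obtain ⟨μ0, c, hc, hmax, -, huniq, h1, h2⟩ := hEX n (closedBall (0 : En n) R) hXc
    ⟨0, mem_closedBall_self hR.le⟩
  have hμ0 : μ = μ0 := huniq μ hμ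
  subst hμ0
  have hval : MeasurableEmbedding (Subtype.val : closedBall (0 : En n) R → En n) :=
    MeasurableEmbedding.subtype_coe isClosed_closedBall.measurableSet
  have hgm : Measurable g := g.continuous.measurable
  have hP : IsProbabilityMeasure μ := hμ.1
  have hPw : IsProbabilityMeasure (inEn μ) :=
    Measure.isProbabilityMeasure_map hval.measurable.aemeasurable
  have hPg : IsProbabilityMeasure ((inEn μ).map g) :=
    Measure.isProbabilityMeasure_map hgm.aemeasurable
  have hX : inEn μ (closedBall (0 : En n) R)ᶜ = 0 := by
    unfold inEn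
    rw [hval.map_apply]
    have : (Subtype.val : closedBall (0 : En n) R → En n) ⁻¹' (closedBall (0 : En n) R)ᶜ = ∅ := by
      ext x
      simp only [mem_preimage, mem_compl_iff, mem_empty_iff_false, iff_false, not_not]
      exact x.2
    rw [this, measure_empty]
  have hgX : (inEn μ).map g (closedBall (0 : En n) R)ᶜ = 0 := by
    rw [Measure.map_apply hgm isClosed_closedBall.measurableSet.compl]
    have : (g : En n → En n) ⁻¹' (closedBall (0 : En n) R)ᶜ = (closedBall (0 : En n) R)ᶜ := by
      ext x
      simp
    rw [this]
    exact hX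
  have hpot : ∀ x : En n, potential ((inEn μ).map g) x = potential (inEn μ) (g.symm x) := by
    intro x
    unfold potential
    rw [integral_map hgm.aemeasurable]
    · congr 1
      ext y
      have : dist x (g y) = dist (g.symm x) y := by
        rw [← g.dist_map (g.symm x) y, g.apply_symm_apply]
      rw [this]
    · exact (Real.continuous_exp.comp (continuous_const.dist continuous_id).neg).aestronglyMeasurable
  have hsupp : ∀ x : En n, x ∈ ((inEn μ).map g).support → g.symm x ∈ (inEn μ).support := by
    intro x hx
    rw [Measure.support_eq_forall_isOpen] at hx ⊢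
    intro U hxU hU
    have h3 := hx (g.symm ⁻¹' U) hxU (hU.preimage g.symm.continuous)
    rw [Measure.map_apply hgm (hU.preimage g.symm.continuous).measurableSet] at h3
    have h4 : (g : En n → En n) ⁻¹' (g.symm ⁻¹' U) = U := by
      ext y
      simp
    rwa [h4] at h3
  obtain ⟨μ', hμ', hmax', -, -⟩ := hCRIT n (closedBall (0 : En n) R) hXc ((inEn μ).map g) hPg hgX
    c hc
    (by
      intro x hx
      rw [hpot x]
      refine h1 _ ?_
      rw [mem_closedBall_zero_iff] at hx ⊢
      rwa [g.symm.norm_map])
    (by
      intro x hx
      rw [hpot x]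
      exact h2 _ (hsupp x hx))
  rw [← hμ', huniq μ' hmax']

end Pool.Agent.Helper49.MM
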